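import Mathlib

/-!
A `T₀` space with a base of point-finite rank (in fact a base totally ordered by inclusion) that
has no Noetherian base.
-/

open Set TopologicalSpace

namespace Pool.Agent.Results.MP_d968d9_gt.InitialSegments

/-- No two distinct members are comparable by inclusion. -/
def Incomparable {X : Type} (G : Set (Set X)) : Prop :=
  ∀ A ∈ G, ∀ B ∈ G, A ≠ B → ¬ A ⊆ B ∧ ¬ B ⊆ A

/-- For each point `x` there is `n` such that every incomparable subfamily whose members all
contain `x` has at most `n` members. -/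
def PointFiniteRank {X : Type} (G : Set (Set X)) : Prop :=
  ∀ x : X, ∃ n : ℕ, ∀ G' : Set (Set X), G' ⊆ G → Incomparable G' → (∀ A ∈ G', x ∈ A) →
    G'.Finite ∧ G'.ncard ≤ n

/-- There is no infinite strictly increasing sequence of members. -/
def Noetherian {X : Type} (G : Set (Set X)) : Prop :=
  ¬ ∃ s : ℕ → Set X, (∀ i, s i ∈ G) ∧ ∀ i, s i ⊂ s (i + 1)

theorem result : ∃ (X : Type) (_ : TopologicalSpace X), T0Space X ∧
    (∃ B : Set (Set X), IsTopologicalBasis B ∧ PointFiniteRank B) ∧
    ∀ B : Set (Set X), IsTopologicalBasis B → ¬ Noetherian B := by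
  let t : TopologicalSpace ℕ := Topology.lowerSet ℕ
  have hopen : ∀ s : Set ℕ, IsOpen s ↔ IsLowerSet s := fun s => Iff.rfl
  have hIic : ∀ n : ℕ, IsOpen (Iic n) := fun n => (hopen _).2 (isLowerSet_Iic n)
  refine ⟨ℕ, t, ?_, ⟨Set.range (fun n : ℕ => Iic n), ?_, ?_⟩, ?_⟩
  · refine ⟨fun x y hxy => ?_⟩
    have h1 : x ∈ Iic y := (hxy.mem_open_iff (hIic y)).2 (le_refl y)
    have h2 : y ∈ Iic x := (hxy.mem_open_iff (hIic x)).1 (le_refl x)
    exact le_antisymm h1 h2
  · refine isTopologicalBasis_of_isOpen_of_nhds ?_ ?_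
    · rintro _ ⟨n, rfl⟩
      exact hIic n
    · intro a u ha hu
      exact ⟨Iic a, ⟨a, rfl⟩, le_refl a, fun b hb => (hopen _).1 hu hb ha⟩
  · intro x
    refine ⟨1, ?_⟩
    intro G' hG' hinc _
    have hsub : G'.Subsingleton := by
      intro A hA B hB
      by_contra hne
      obtain ⟨m, hm⟩ := hG' hA
      obtain ⟨n, hn⟩ := hG' hB
      have h := hinc A hA B hB hne
      rcases le_total m n with hmn | hmn
      · apply h.1
        rw [← hm, ← hn]
        exact Iic_subset_Iic.2 hmn
      · apply h.2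
        rw [← hm, ← hn]
        exact Iic_subset_Iic.2 hmn
    exact ⟨hsub.finite, (Set.ncard_le_one hsub.finite).2 fun a ha b hb => hsub ha hb⟩
  · intro B hB hN
    apply hN
    refine ⟨fun i => Iic i, ?_, ?_⟩
    · intro i
      obtain ⟨V, hV, hiV, hVi⟩ := hB.exists_subset_of_mem_open (Set.mem_Iic.2 (le_refl i)) (hIic i)
      have hVe : V = Iic i := hVi.antisymm fun b hb => (hopen _).1 (hB.isOpen hV) hb hiV
      show Iic i ∈ B
      rw [← hVe]
      exact hV
    · intro i
      refine ⟨Iic_subset_Iic.2 (Nat.le_succ i), fun hc => ?_⟩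
      have h : i + 1 ≤ i := hc (le_refl (i + 1))
      omega

end Pool.Agent.Results.MP_d968d9_gt.InitialSegments
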